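import Pool.Agent.H759.KB.Two
import Pool.Agent.H759.KB.Phase
import Pool.Graph.R_seed8.W715.VC.Limit
import Pool.Graph.R_seed8.W715.VC.Base
import Pool.Graph.R_seed8.H756R3.J.Cont
import Pool.Graph.R_seed8.H105R3.JSanCurl
import Pool.Graph.R_seed8.H309R4.Jones.SanU
import Pool.Graph.R_seed8.H550R3.Jones.SanSkein699

set_option autoImplicit false

/-!
# Growth, volume and ratios for all palindromic closed 3-braids with their axes, odd `N`

Let `u` be a word in `s_1^{±1}`, `s_2^{±1}`, and let the word `ū` be obtained from `u` by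
reversing the order of the letters and replacing `s_1^{±1}`, `s_2^{±1}` by `s_2^{∓1}`, `s_1^{∓1}`.
Let `L(u, n)` be the closure of the 3-braid `(u ū)^n` together with its braid axis.  If `M` is the
image of `u` in `SL(2, ℤ)`, then that of `u ū` is `M Mᵀ`.  Let `T` be the trace of `M Mᵀ`, the sum of the
squares of the entries of `M`.  The link `L(u, n)` is hyperbolic if `T > 2` (the braid is pseudo-Anosov),
that is, unless `M` is orthogonal.  As a braid `ū = Δ u⁻¹ Δ⁻¹`, `Δ = s_1 s_2 s_1`, and the inverse of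
`(u ū)^n` is conjugate to it by `Δ`: the complement of `L(u, n)` is amphicheiral, so that `2 CS = 0` modulo
`π²`.

Write `a_N = J_N(L(u, n); e^(2 π i / N))`.  We prove for all the hyperbolic links `L(u, n)`:
`a_N = -exp (3 π i / N) |a_N|` and `|a_N| ≥ (T / 2)^(n N / (200000 A))` for all `N ≥ 10^8 A^2`, if all exponents
of the positive normal form of `u` are at most `A`.  So `a_N ≠ 0`, the imaginary part of
`π log (a_{N+2} / a_N)` tends to `0`, and Q1 for `L(u, n)` is equivalent to the convergence of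
`π log |a_{N+2} / a_N|` to the volume along odd `N` and `CS = 0` modulo `π²`.
Here the positive normal form of `u` is an alternating word `w` in the powers of `s_2` and `s_1⁻¹` with
`u = Δ^p w Δ^r` in the braid group; it exists for every `u`, and its exponents are at most the length
of `u`.  If `w` has `k` syllables then `T ≥ 2^k`.
The braid `(u ū)^n` is conjugate to `(w w̄)^n`, a positive word with `2 n k` syllables.
The complement of `L(u, n)` is the bundle of four-punctured spheres over the circle with the monodromy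
`(w w̄)^n`; it has the layered ideal triangulation with two tetrahedra for each letter `s_1⁻¹`, `s_2`.  A
layer between two different letters is a hinge layer.  The volume is defined as the supremum of the volumes
of the angle structures of this triangulation; by results of Casson, Rivin and Guéritaud it is the
hyperbolic volume.  We prove that `2 π log |J_N| / N` lies, for large `N`, between the volume divided by
`1200000 A` and four times the volume.

For all large `N` the phase is known from the starting library (`PalindromicPhaseOdd` (7) of this page), as are the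
lower bound `exp (c √N)` (`SuperpolynomialGrowth`) and the upper bound (`ReflectionInequality`).  New are the
exponential lower bound, with the explicit range of `N`, and the comparison with the volume.

Proof.  `a_N` is `-exp (3 π i / N)` times the trace of the operator of `(u ū)^n` on the third
tensor power of the `N`-dimensional representation (starting library).  The operator of `u ū` is
self-adjoint for an (indefinite) hermitian form, so that the trace is real, and its eigenvalues are positive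
or of absolute value one, so that the trace is positive if it is larger than `N^3` in absolute value.
It remains to show that it is exponentially large.  This is the main point, with the method of
`Pool.Agent.Results.MP_bdeb5b_gt.PalindromicExponential`: on the space of highest weight vectors of
dimension `n₀` of order `N / A` a word acts as the value at `t = π / N` of an analytic family of matrices which
at `t = 0` is the symmetric power of a product of the positive matrices `(1, 1; 0, 1)`, `(1, 0; 1, 1)`; the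
trace has no zeros for `|t| ≤ c / (A n₀)` (polynomials without zeros in products of half-planes, Laguerre),
and the Borel–Carathéodory inequality bounds it from below.

The links are written as closures of braids on four strands: strand number `0` runs once around the
other three strands (this is the axis) and the last three strands carry the braid.

The invariants are defined from the R-matrix of `U_q(sl_2)`, with `v = q^{1/2}` and
`{k} = v^k - v^{-k}`.  The `N`-coloured Jones polynomial `cjones N n w v` of the closure of a braid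
word `w` on `n + 1` strands is the entry at the highest weight vector of the partial quantum trace
(over all strands but the first one) of the operator of `w` on the tensor power of the
`N`-dimensional irreducible representation.  The crossings carry the framing correction and the
unknot has value `1`.  Its value at `v = exp (π i / N)` is the value at `q = exp (2 π i / N)`.
-/



namespace Pool.Agent.Results.MP_b30479_gt.AllPalindromicRatios

open Finset Filter Topology

/-- `{n} = v^n - v^{-n}` -/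
noncomputable def br (v : ℂ) (n : ℤ) : ℂ := v ^ n - v ^ (-n)

/-- `{n}! = {1} {2} ⋯ {n}` -/
noncomputable def brf (v : ℂ) (n : ℕ) : ℂ := ∏ j ∈ range n, br v ((j : ℤ) + 1)

/-- The positive crossing: the R-matrix of `U_q(sl_2)` on `V_N ⊗ V_N`, `V_N` with basis
`e_0, …, e_{N-1}`, times the framing factor `v^{-(N^2-1)/2}`; `crossP N v p q` is the coefficient
of `e_{p.1} ⊗ e_{p.2}` in the image of `e_{q.1} ⊗ e_{q.2}`:
`e_i ⊗ e_j ↦ ∑_n v^{-(N-1)(1+i+j) + 2(i-n)(j+n) + n(n-1)/2}
({j+n}! / ({j}! {n}!)) ∏_{t<n} {N-i+t} e_{j+n} ⊗ e_{i-n}`. -/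
noncomputable def crossP (N : ℕ) (v : ℂ) : Matrix (Fin N × Fin N) (Fin N × Fin N) ℂ :=
  fun p q => if (p.1 : ℕ) + p.2 = q.1 + q.2 ∧ (q.2 : ℕ) ≤ p.1 then
    v ^ (-((N : ℤ) - 1) * (1 + (q.1 : ℕ) + (q.2 : ℕ)) + 2 * (p.1 : ℕ) * (p.2 : ℕ)) *
      v ^ (((p.1 : ℕ) - q.2) * ((p.1 : ℕ) - q.2 - 1) / 2) *
      (brf v p.1 / (brf v q.2 * brf v ((p.1 : ℕ) - q.2))) *
      ∏ t ∈ range ((p.1 : ℕ) - q.2), br v ((N : ℤ) - (q.1 : ℕ) + t)
    else 0

/-- The negative crossing, inverse of `crossP N v`:
`e_i ⊗ e_j ↦ ∑_n (-1)^n v^{(N-1)(1+i+j) - 2ij - n(n-1)/2}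
({i+n}! / ({i}! {n}!)) ∏_{t<n} {N-j+t} e_{j-n} ⊗ e_{i+n}`. -/
noncomputable def crossN (N : ℕ) (v : ℂ) : Matrix (Fin N × Fin N) (Fin N × Fin N) ℂ :=
  fun p q => if (p.1 : ℕ) + p.2 = q.1 + q.2 ∧ (q.1 : ℕ) ≤ p.2 then
    (-1) ^ ((p.2 : ℕ) - q.1) *
      v ^ (((N : ℤ) - 1) * (1 + (q.1 : ℕ) + (q.2 : ℕ)) - 2 * (q.1 : ℕ) * (q.2 : ℕ)) /
      v ^ (((p.2 : ℕ) - q.1) * ((p.2 : ℕ) - q.1 - 1) / 2) *
      (brf v p.2 / (brf v q.1 * brf v ((p.2 : ℕ) - q.1))) *
      ∏ t ∈ range ((p.2 : ℕ) - q.1), br v ((N : ℤ) - (q.2 : ℕ) + t)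
    else 0

/-- The braid generator `s_k` on `n` strands (it acts on the strands number `k` and `k + 1`,
counted from `0`) by the crossing matrix `A`. -/
def gen {ι : Type} [DecidableEq ι] (A : Matrix (ι × ι) (ι × ι) ℂ) (n k : ℕ) :
    Matrix (Fin n → ι) (Fin n → ι) ℂ :=
  fun s t => if h : k + 1 < n then
    (if ∀ j : Fin n, (j : ℕ) ≠ k → (j : ℕ) ≠ k + 1 → s j = t j then
      A (s ⟨k, by omega⟩, s ⟨k + 1, h⟩) (t ⟨k, by omega⟩, t ⟨k + 1, h⟩) else 0)
    else (if s = t then 1 else 0)

/-- The operator of a braid word on `n` strands: the letter `(k, true)` is `s_k`, the letter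
`(k, false)` is its inverse; `P` and `Q` are the matrices of the two crossings. -/
def rep {ι : Type} [Fintype ι] [DecidableEq ι] (P Q : Matrix (ι × ι) (ι × ι) ℂ) (n : ℕ)
    (w : List (ℕ × Bool)) : Matrix (Fin n → ι) (Fin n → ι) ℂ :=
  (w.map fun g => gen (if g.2 then P else Q) n g.1).prod

/-- The partial trace over all strands but the first one, with weights `k`; `n + 1` strands. -/
def tail {ι : Type} [Fintype ι] (k : ι → ℂ) (n : ℕ)
    (A : Matrix (Fin (n + 1) → ι) (Fin (n + 1) → ι) ℂ) : Matrix ι ι ℂ :=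
  fun i j => ∑ s : Fin n → ι, (∏ x, k (s x)) * A (Fin.cons i s) (Fin.cons j s)

/-- The `N`-coloured Jones polynomial (unknot `= 1`) of the closure of the braid word `w` on
`n + 1` strands, at `q = v^2`: the entry at the highest weight vector `e_0` of the partial quantum
trace, with the weights `v^{N-1-2x}` of `K`. -/
noncomputable def cjones (N n : ℕ) (w : List (ℕ × Bool)) (v : ℂ) : ℂ :=
  if h : 0 < N then
    tail (fun x : Fin N => v ^ ((N : ℤ) - 1 - 2 * (x : ℕ))) n
      (rep (crossP N v) (crossN N v) (n + 1) w) ⟨0, h⟩ ⟨0, h⟩ else 0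

/-- The braid axis: strand `0` runs once around the strands `1`, `2` and `3`. -/
def axisWord : List (ℕ × Bool) :=
  [(0, true), (1, true), (2, true), (2, true), (1, true), (0, true)]

/-- A word in the letters `s_1^{±1}` (number `0`) and `s_2^{±1}` (number `1`). -/
def IsWord (u : List (ℕ × Bool)) : Prop := ∀ l ∈ u, l.1 = 0 ∨ l.1 = 1

/-- The letter `s_2^{∓1}` for `s_1^{±1}` and `s_1^{∓1}` for `s_2^{±1}`. -/
def flip (l : ℕ × Bool) : ℕ × Bool := (1 - l.1, !l.2)

/-- The word `ū`. -/
def bar (u : List (ℕ × Bool)) : List (ℕ × Bool) := (u.map flip).reverse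

/-- The image of a word in `SL(2, ℤ)`: `s_1` is `(1, 1; 0, 1)` and `s_2` is `(1, 0; -1, 1)`. -/
def mat (u : List (ℕ × Bool)) : Matrix (Fin 2) (Fin 2) ℤ :=
  (u.map fun l => if l.1 = 0 then (if l.2 then !![1, 1; 0, 1] else !![1, -1; 0, 1])
    else (if l.2 then !![1, 0; -1, 1] else !![1, 0; 1, 1])).prod

/-- The word on four strands of the link `L(u, n)`: the axis, and then the braid
`(u ū)^n` on the strands `1`, `2` and `3`. -/
def linkWord (u : List (ℕ × Bool)) (n : ℕ) : List (ℕ × Bool) :=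
  axisWord ++ (List.replicate n ((u ++ bar u).map fun l => (l.1 + 1, l.2))).flatten

/-- `v_N = exp (π i / N)`, so that `q = v_N^2 = exp (2 π i / N)`. -/
noncomputable def root (N : ℕ) : ℂ := Complex.exp (Real.pi * Complex.I / N)

/-- The Kashaev invariant of `L(u, n)`. -/
noncomputable def kashaev (u : List (ℕ × Bool)) (n N : ℕ) : ℂ := cjones N 3 (linkWord u n) (root N)

/-! ### Alternating words -/

/-- The alternating word with the exponents `l`: `s_2^{a_1} s_1^{-a_2} s_2^{a_3} ⋯` for `s = true`,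
`s_1^{-a_1} s_2^{a_2} s_1^{-a_3} ⋯` for `s = false`. -/
def syl : Bool → List ℕ → List (ℕ × Bool)
  | _, [] => []
  | s, a :: l => List.replicate a (if s then (1, true) else (0, false)) ++ syl (!s) l

/-- The value of a word in a group with `s_1 ↦ a`, `s_2 ↦ b`. -/
def value {G : Type} [Group G] (a b : G) (w : List (ℕ × Bool)) : G :=
  (w.map fun l => if l.1 = 0 then (if l.2 then a else a⁻¹) else (if l.2 then b else b⁻¹)).prod

/-- `u = Δ^p w Δ^r` in the braid group on three strands, `Δ = s_1 s_2 s_1`, that is, in every group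
with elements `a`, `b` such that `a b a = b a b`. -/
def UpToDelta (u w : List (ℕ × Bool)) : Prop := ∃ p r : ℤ, ∀ (G : Type) [Group G] (a b : G),
  a * b * a = b * a * b → value a b u = (a * b * a) ^ p * value a b w * (a * b * a) ^ r

/-! ### The volume -/

/-- Lobachevsky's function `Λ(x) = -∫_0^x log |2 sin t| dt`. -/
noncomputable def Lob (x : ℝ) : ℝ := -∫ t in (0 : ℝ)..x, Real.log |2 * Real.sin t|

/-- Volume of the regular ideal tetrahedron, `3 Λ(π/3) = 1.0149…`. -/
noncomputable def v3 : ℝ := 3 * Lob (Real.pi / 3)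

/-- The word `(w w̄)^n` as a list of truth values, for a word `w` in `s_2` and `s_1⁻¹`: `true` is `s_2` and
`false` is `s_1⁻¹`. -/
def monodromy (w : List (ℕ × Bool)) (n : ℕ) : List Bool :=
  (List.replicate n (w ++ bar w)).flatten.map Prod.snd

/-- Letter number `i` of the periodic continuation of the word `u`. -/
def lett (u : List Bool) (i : ℤ) : Bool := u.getD (i % (u.length : ℤ)).toNat false

/-- Layer number `i` (between the letters number `i` and `i + 1`) is a hinge layer. -/
def Hinge (u : List Bool) (i : ℤ) : Prop := lett u i ≠ lett u (i + 1)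

instance (u : List Bool) (i : ℤ) : Decidable (Hinge u i) := by unfold Hinge; infer_instance

/-- First dihedral angle of the tetrahedra of layer `i`. -/
noncomputable def angX (u : List Bool) (w : ℤ → ℝ) (i : ℤ) : ℝ :=
  if Hinge u i then (w (i - 1) + w i - w (i + 1)) / 2 else (w (i - 1) + w (i + 1)) / 2

/-- Second dihedral angle of the tetrahedra of layer `i`. -/
noncomputable def angY (u : List Bool) (w : ℤ → ℝ) (i : ℤ) : ℝ :=
  if Hinge u i then (-w (i - 1) + w i + w (i + 1)) / 2 else (2 * w i - w (i - 1) - w (i + 1)) / 2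

/-- Third dihedral angle of the tetrahedra of layer `i`. -/
noncomputable def angZ (w : ℤ → ℝ) (i : ℤ) : ℝ := Real.pi - w i

/-- Angle structures on the layered triangulation: functions on the layers (periodic, the period is
the number of letters) with positive dihedral angles. -/
def IsAngle (u : List Bool) (w : ℤ → ℝ) : Prop :=
  (∀ i, w (i + u.length) = w i) ∧ ∀ i, 0 < angX u w i ∧ 0 < angY u w i ∧ 0 < angZ w i

/-- The volume of an angle structure: two ideal tetrahedra in each layer, each of volume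
`Λ(x) + Λ(y) + Λ(z)`. -/
noncomputable def angVol (u : List Bool) (w : ℤ → ℝ) : ℝ :=
  ∑ i ∈ range u.length, 2 * (Lob (angX u w i) + Lob (angY u w i) + Lob (angZ w i))

/-- The supremum of the volumes of the angle structures; by Casson, Rivin and Guéritaud this is the
hyperbolic volume of the complement. -/
noncomputable def vol (u : List Bool) : ℝ := sSup {V : ℝ | ∃ w, IsAngle u w ∧ angVol u w = V}

/-! ### The statement -/

/-- `J N` is not zero, `-e^(3 π i / N)` times a positive real number, and at least `b` in absolute value. -/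
def Phase (J : ℕ → ℂ) (N : ℕ) (b : ℝ) : Prop :=
  J N ≠ 0 ∧ J N = -Complex.exp (3 * Real.pi * Complex.I / N) * ((‖J N‖ : ℝ) : ℂ) ∧ b ≤ ‖J N‖

/-- The odd natural numbers tending to infinity. -/
def odd : Filter ℕ := atTop ⊓ 𝓟 {N : ℕ | Odd N}

/-- The sequence has ratios with the phase of a link with Chern-Simons invariant `0`: the imaginary part
of `π log (J (N + 2) / J N)` tends to `0` (principal value), and for all real `V`, `C` the numbers
`π log (J (N + 2) / J N)` tend to `V + i C` modulo `i π²` along odd `N` if and only if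
`π log |J (N + 2) / J N|` tends to `V` along odd `N` and `C = 0` modulo `π²`. -/
def RatioPart (J : ℕ → ℂ) : Prop :=
  Tendsto (fun N : ℕ => (Real.pi * Complex.log (J (N + 2) / J N)).im) atTop (𝓝 0) ∧
  ∀ V C : ℝ, (∃ k : ℕ → ℤ, Tendsto (fun N : ℕ => Real.pi * Complex.log (J (N + 2) / J N) +
      k N * (Real.pi ^ 2 * Complex.I)) odd (𝓝 (V + C * Complex.I))) ↔
    Tendsto (fun N : ℕ => Real.pi * Real.log (‖J (N + 2)‖ / ‖J N‖)) odd (𝓝 V) ∧
      ∃ q : ℤ, C = q * Real.pi ^ 2

/-! ### Checks of the definitions (not part of the result) -/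

/-- The image of `ū` in `SL(2, ℤ)` is the transpose of that of `u`. -/
theorem mat_bar {u : List (ℕ × Bool)} (hu : IsWord u) : mat (bar u) = (mat u).transpose :=
  Pool.Agent.V11115.VC.mat_dual u fun l hl => by rcases hu l hl with h | h <;> omega

/-- For `N = 2` the crossings satisfy the skein relation of the Jones polynomial. -/
theorem skein (v : ℂ) (hv : v ≠ 0) (h1 : br v 1 ≠ 0) :
    v ^ 2 • crossP 2 v - (v ^ 2)⁻¹ • crossN 2 v =
      (v - v⁻¹) • (1 : Matrix (Fin 2 × Fin 2) (Fin 2 × Fin 2) ℂ) :=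
  Pool.Agent.H550R3.Jones.taskSanSkein v hv h1

/-- The two crossings are inverse to each other. -/
theorem cross_inverse (N : ℕ) (v : ℂ) (hv : v ≠ 0)
    (h : ∀ k : ℕ, 0 < k → k < N → br v k ≠ 0) :
    crossP N v * crossN N v = 1 ∧ crossN N v * crossP N v = 1 :=
  Pool.Agent.H309R4.Jones.SanI.taskSanInv Pool.Agent.H345J.taskMod Pool.Agent.H345J.taskInv
    Pool.Agent.H559R3.J.taskCross N v ⟨hv, h⟩

/-- The Yang-Baxter equation, for every colour. -/
theorem yang_baxter (N : ℕ) (v : ℂ) (hv : v ≠ 0) (h : ∀ k : ℕ, 0 < k → k < N → br v k ≠ 0) :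
    gen (crossP N v) 3 0 * gen (crossP N v) 3 1 * gen (crossP N v) 3 0 =
      gen (crossP N v) 3 1 * gen (crossP N v) 3 0 * gen (crossP N v) 3 1 :=
  Pool.Agent.H927R2.J.SanYB.taskSanYB Pool.Agent.H345J.taskMod Pool.Agent.H345J.taskInt
    Pool.Agent.H345J.taskInv Pool.Agent.H667J.taskHex1 Pool.Agent.H22R3.J.taskNat
    Pool.Agent.H559R3.J.taskCross N v ⟨hv, h⟩

/-- Curls may be removed: the framing is normalised. -/
theorem curl (N : ℕ) (v : ℂ) (hv : v ≠ 0) (h : ∀ k : ℕ, 0 < k → k < N → br v k ≠ 0) :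
    (fun i j => ∑ x : Fin N, v ^ ((N : ℤ) - 1 - 2 * (x : ℕ)) * crossP N v (i, x) (j, x)) =
      (1 : Matrix (Fin N) (Fin N) ℂ) ∧
    (fun i j => ∑ x : Fin N, v ^ ((N : ℤ) - 1 - 2 * (x : ℕ)) * crossN N v (i, x) (j, x)) =
      (1 : Matrix (Fin N) (Fin N) ℂ) :=
  Pool.Agent.H105R3.JSan.taskSanCurl N v ⟨hv, h⟩

/-- The unknot has the value `1`. -/
theorem unknot (N : ℕ) (v : ℂ) (hN : 0 < N) (hv : v ≠ 0)
    (h : ∀ k : ℕ, 0 < k → k < N → br v k ≠ 0) :
    cjones N 0 [] v = 1 ∧ cjones N 1 [(0, true)] v = 1 ∧ cjones N 1 [(0, false)] v = 1 :=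
  Pool.Agent.H309R4.Jones.SanU.taskSanUnknot N v hN ⟨hv, h⟩

/-! ### Bridges -/

lemma cjones_eq (N n : ℕ) (w : List (ℕ × Bool)) (v : ℂ) :
    cjones N n w v = Pool.Agent.H550R3.Jones.cjones N n w v := rfl

lemma link_eq (u : List (ℕ × Bool)) (n : ℕ) : linkWord u n =
    Pool.Agent.W715.VC.axisClosure
      (Pool.Agent.W715.VC.wpow (u ++ Pool.Agent.W715.VC.dual u) n) := by
  unfold linkWord Pool.Agent.W715.VC.axisClosure Pool.Agent.W715.VC.wpow
  congr 1
  rw [List.map_flatten, List.map_replicate]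
  rfl

lemma kashaev_norm {N : ℕ} (hN : 0 < N) (u : List (ℕ × Bool)) (n : ℕ) : ‖kashaev u n N‖ =
    ‖(Pool.Agent.W715.VC.rep3 N
      (Pool.Agent.W715.VC.wpow (u ++ Pool.Agent.W715.VC.dual u) n)).trace‖ := by
  unfold kashaev
  rw [cjones_eq, link_eq]
  exact Pool.Agent.W715.VC.norm_cjones_axis hN _

lemma wpow_one (w : List (ℕ × Bool)) : Pool.Agent.W715.VC.wpow w 1 = w := by
  simp [Pool.Agent.W715.VC.wpow]

/-- The polynomial comparison of the invariants of `L(u, n)` and of `L(u, 1)`. -/
lemma bounds {u : List (ℕ × Bool)} (hu : IsWord u) {n N : ℕ} (hn : 1 ≤ n) (hN : 1 ≤ N) :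
    ‖kashaev u n N‖ ≤ (N : ℝ) ^ 3 * (‖kashaev u 1 N‖ + (N : ℝ) ^ 3) ^ n ∧
      (‖kashaev u 1 N‖ / (N : ℝ) ^ 3) ^ n ≤ ‖kashaev u n N‖ + (N : ℝ) ^ 3 := by
  rw [kashaev_norm (by omega), kashaev_norm (by omega), wpow_one]
  exact Pool.Agent.W715.VC.trace_bounds (by omega)
    (fun l hl => by rcases hu l hl with h | h <;> omega) (by omega)

/-! ### The proof -/

lemma syl_pos (s : Bool) (l : List ℕ) : ∀ x ∈ syl s l, Pool.Agent.V11115.VC.Pos x := by
  induction l generalizing s with
  | nil => intro x hx; simp [syl] at hx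
  | cons a l ih =>
    intro x hx
    rcases List.mem_append.1 hx with h | h
    · rw [List.eq_of_mem_replicate h]
      cases s
      · exact Or.inr rfl
      · exact Or.inl rfl
    · exact ih _ x h

lemma syl_toL (s : Bool) (l : List ℕ) :
    (syl s l).map Pool.Agent.H759.KB.toL = Pool.Agent.H759.KP.sw s l := by
  induction l generalizing s with
  | nil => rfl
  | cons a l ih =>
    show (List.replicate a (if s then (1, true) else (0, false)) ++ syl (!s) l).map
      Pool.Agent.H759.KB.toL = List.replicate a (Pool.Agent.H759.KP.lr s)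
        ++ Pool.Agent.H759.KP.sw (!s) l
    rw [List.map_append, List.map_replicate, ih]
    cases s <;> rfl

/-- a positive word is determined by its letters -/
lemma toL_inj {w w' : List (ℕ × Bool)} (hw : ∀ x ∈ w, Pool.Agent.V11115.VC.Pos x)
    (hw' : ∀ x ∈ w', Pool.Agent.V11115.VC.Pos x)
    (h : w.map Pool.Agent.H759.KB.toL = w'.map Pool.Agent.H759.KB.toL) : w = w' := by
  induction w generalizing w' with
  | nil =>
    rw [List.map_nil] at h
    exact (List.map_eq_nil_iff.1 h.symm).symm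
  | cons x w ih =>
    cases w' with
    | nil => simp at h
    | cons x' w' =>
      rw [List.map_cons, List.map_cons, List.cons.injEq] at h
      have h1 := ih (fun y hy => hw y (List.mem_cons_of_mem _ hy))
        (fun y hy => hw' y (List.mem_cons_of_mem _ hy)) h.2
      have h2 : x = x' := by
        rcases hw x List.mem_cons_self with rfl | rfl <;>
          rcases hw' x' List.mem_cons_self with rfl | rfl
        · rfl
        · exact absurd h.1 (by simp [Pool.Agent.H759.KB.toL])
        · exact absurd h.1 (by simp [Pool.Agent.H759.KB.toL])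
        · rfl
      rw [h1, h2]

lemma normal_form {u : List (ℕ × Bool)} (hu : IsWord u) :
    ∃ (s : Bool) (l : List ℕ), (∀ a ∈ l, 1 ≤ a ∧ a ≤ u.length) ∧ UpToDelta u (syl s l) := by
  obtain ⟨p, r, w, hw, hlen, hG⟩ := Pool.Agent.V11115.VC.reduce u
    (fun l hl => by rcases hu l hl with h | h <;> omega)
  have hLR : ∀ x ∈ w.map Pool.Agent.H759.KB.toL,
      x = Pool.Agent.H759.PTB.Letter.L ∨ x = Pool.Agent.H759.PTB.Letter.R := by
    intro x hx
    obtain ⟨l, _, rfl⟩ := List.mem_map.1 hx
    unfold Pool.Agent.H759.KB.toL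
    split_ifs
    · exact Or.inr rfl
    · exact Or.inl rfl
  obtain ⟨s, l, h1, h2⟩ := Pool.Agent.H759.KB.exists_sw hLR
  refine ⟨s, l, fun a ha => ?_, p, r, fun G _ a b hab => ?_⟩
  · obtain ⟨h3, h4⟩ := h2 a ha
    rw [List.length_map] at h4
    exact ⟨h3, h4.trans hlen⟩
  · have e : w = syl s l := toL_inj hw (syl_pos s l) (by rw [syl_toL]; exact h1)
    rw [← e]
    exact hG G a b hab

lemma main_bound {u : List (ℕ × Bool)} (hu : IsWord u) (htr : 2 < (mat (u ++ bar u)).trace)
    {A : ℕ} {s : Bool} {l : List ℕ} (hA : ∀ a ∈ l, 1 ≤ a ∧ a ≤ A) (hd : UpToDelta u (syl s l)) :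
    2 ^ l.length ≤ (mat (u ++ bar u)).trace ∧ ∀ n N : ℕ, 1 ≤ n → 10 ^ 8 * A ^ 2 ≤ N →
      (((mat (u ++ bar u)).trace : ℝ) / 2) ^ ((n : ℝ) * N / (200000 * A)) ≤ ‖kashaev u n N‖ ∧
      ((2 : ℝ) ^ l.length) ^ ((n : ℝ) * N / (200000 * A)) ≤ ‖kashaev u n N‖ ∧
      (N : ℝ) ^ 3 < ‖kashaev u n N‖ := by
  obtain ⟨p, r, hpr⟩ := hd
  have hu' : ∀ l ∈ u, l.1 < 2 := fun l hl => by rcases hu l hl with h | h <;> omega
  set w := syl s l with hw
  have hpos : ∀ x ∈ w, Pool.Agent.V11115.VC.Pos x := syl_pos s l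
  have hw2 : ∀ l ∈ w, l.1 < 2 := fun l hl => by rcases hpos l hl with rfl | rfl <;> norm_num
  have hne : w ≠ [] := Pool.Agent.V11115.VC.ne_nil hu'
    (hpr _ Pool.Agent.V11115.VC.mA Pool.Agent.V11115.VC.mB (by decide)) htr
  have hl : l ≠ [] := by
    rintro rfl
    exact hne rfl
  have hA1 : 1 ≤ A := by
    obtain ⟨a, l', rfl⟩ := List.exists_cons_of_ne_nil hl
    have := hA a (by simp)
    omega
  have hT : (mat (u ++ bar u)).trace = (Pool.Agent.V11115.VC.mat
      (w ++ Pool.Agent.W715.VC.dual w)).trace :=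
    Pool.Agent.H759.KB.trace_mat hu' hw2
      (hpr _ Pool.Agent.V11115.VC.mA Pool.Agent.V11115.VC.mB (by decide))
  have hWpos : ∀ x ∈ w ++ Pool.Agent.W715.VC.dual w, Pool.Agent.V11115.VC.Pos x := by
    intro x hx
    rcases List.mem_append.1 hx with h | h
    · exact hpos x h
    · exact Pool.Agent.V11115.VC.dual_pos hpos x h
  have hTD := Pool.Agent.H759.KB.trace_le hWpos
  rw [← hT] at hTD
  set D := Pool.Agent.H759.KP.dg
    ((w ++ Pool.Agent.W715.VC.dual w).map Pool.Agent.H759.KB.toL) with hD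
  have hkey := fun {N : ℕ} (hN : 10 ^ 8 * A ^ 2 ≤ N) =>
    Pool.Agent.H759.KB.pos_lower hpos (syl_toL s l) hl hA hN
  have hT2 : (2 : ℝ) < ((mat (u ++ bar u)).trace : ℝ) := by exact_mod_cast htr
  have hDT : D ≤ ((mat (u ++ bar u)).trace : ℝ) := by
    obtain ⟨a1, _, _, a4⟩ := Pool.Agent.H759.KB.mat_mt hWpos
    have hLR : ∀ x ∈ (w ++ Pool.Agent.W715.VC.dual w).map Pool.Agent.H759.KB.toL,
        x = Pool.Agent.H759.PTB.Letter.L ∨ x = Pool.Agent.H759.PTB.Letter.R := by
      intro x hx
      obtain ⟨l, _, rfl⟩ := List.mem_map.1 hx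
      unfold Pool.Agent.H759.KB.toL
      split_ifs
      · exact Or.inr rfl
      · exact Or.inl rfl
    obtain ⟨⟨b1, _, _, b4⟩, _, _⟩ := Pool.Agent.H759.PTB.mt_pos hLR
    rw [hT, Matrix.trace_fin_two]
    push_cast
    rw [a1, a4, hD]
    unfold Pool.Agent.H759.KP.dg
    apply max_le <;> linarith
  refine ⟨?_, fun n N hn hN => ?_⟩
  · have h1 := (hkey (N := 10 ^ 8 * A ^ 2) le_rfl).1
    have h2 : (2 : ℝ) ^ l.length ≤ ((mat (u ++ bar u)).trace : ℝ) := h1.trans hDT
    exact_mod_cast h2
  · have hA' : (1 : ℝ) ≤ A := by exact_mod_cast hA1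
    have hN' : (10 : ℝ) ^ 8 * (A : ℝ) ^ 2 ≤ (N : ℝ) := by exact_mod_cast hN
    have hN8 : (10 : ℝ) ^ 8 ≤ (N : ℝ) := by nlinarith [one_le_pow₀ hA' (n := 2)]
    have hNpos : (0 : ℝ) < N := by linarith
    have hN0 : 0 < N := by exact_mod_cast hNpos
    obtain ⟨hk1, hk2⟩ := hkey hN
    have hred := Pool.Agent.V11115.VC.trace_reduce hN0 hu' hw2
      (hpr _ (Pool.Agent.V11115.VC.uA N) (Pool.Agent.V11115.VC.uB N)
        Pool.Agent.V11115.VC.braid_AB)
    rw [← hred] at hk2
    have hD1 : 1 ≤ D := le_trans (by linarith) hTD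
    have hD2 : (2 : ℝ) ≤ D := by
      refine le_trans ?_ hk1
      calc (2 : ℝ) = 2 ^ 1 := by norm_num
        _ ≤ 2 ^ l.length := pow_le_pow_right₀ (by norm_num) (List.length_pos_of_ne_nil hl)
    have hDpos : 0 < D := by linarith
    set E := Real.exp (Real.log D * (N / (200000 * A))) with hE
    have hκ : 2 * (N : ℝ) ^ 3 * E ≤ ‖kashaev u 1 N‖ := by
      rw [kashaev_norm hN0, wpow_one]
      exact hk2
    have hlD : Real.log 2 ≤ Real.log D := Real.log_le_log (by norm_num) hD2
    have hl2 : 0 < Real.log 2 := Real.log_pos (by norm_num)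
    have hN3E : (N : ℝ) ^ 3 < E := by
      have h4 := Pool.Agent.H759.KB.exp_four hA1 hN
      have h5 : Real.log 2 * ((N : ℝ) / (700000 * A)) ≤ Real.log D * (N / (200000 * A)) := by
        apply mul_le_mul hlD _ (by positivity) (by linarith)
        apply div_le_div_of_nonneg_left hNpos.le (by positivity)
        nlinarith
      have h6 : (N : ℝ) ^ 3 < (N : ℝ) ^ 4 := pow_lt_pow_right₀ (by linarith) (by norm_num)
      exact (h6.trans_le h4).trans_le (Real.exp_le_exp.2 h5)
    have hE1 : 1 ≤ E := Real.one_le_exp (by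
      apply mul_nonneg (by linarith)
      positivity)
    obtain ⟨-, hb⟩ := bounds hu hn hN0
    have hN3 : (0 : ℝ) < (N : ℝ) ^ 3 := by positivity
    have h7 : 2 * E ≤ ‖kashaev u 1 N‖ / (N : ℝ) ^ 3 := by
      rw [le_div_iff₀ hN3]
      linarith
    have h8 : 2 * E ^ n ≤ (‖kashaev u 1 N‖ / (N : ℝ) ^ 3) ^ n := by
      refine le_trans ?_ (pow_le_pow_left₀ (by positivity) h7 n)
      rw [mul_pow]
      refine mul_le_mul_of_nonneg_right ?_ (by positivity)
      calc (2 : ℝ) = 2 ^ 1 := (pow_one _).symm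
        _ ≤ 2 ^ n := pow_le_pow_right₀ (by norm_num) hn
    have h9 : (N : ℝ) ^ 3 < E ^ n := by
      calc (N : ℝ) ^ 3 < E := hN3E
        _ = E ^ 1 := (pow_one _).symm
        _ ≤ E ^ n := pow_le_pow_right₀ hE1 hn
    have e1 : E ^ n = D ^ ((n : ℝ) * N / (200000 * A)) := by
      rw [hE, ← Real.exp_nat_mul, Real.rpow_def_of_pos hDpos]
      congr 1
      ring
    have h10 : (((mat (u ++ bar u)).trace : ℝ) / 2) ^ ((n : ℝ) * N / (200000 * A)) ≤ E ^ n := by
      rw [e1]
      exact Real.rpow_le_rpow (by linarith) hTD (by positivity)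
    have h11 : ((2 : ℝ) ^ l.length) ^ ((n : ℝ) * N / (200000 * A)) ≤ E ^ n := by
      rw [e1]
      exact Real.rpow_le_rpow (by positivity) hk1 (by positivity)
    exact ⟨by linarith, by linarith, by linarith⟩

/-! ### The monodromy and the volume -/

lemma value_append {G : Type} [Group G] (a b : G) (v w : List (ℕ × Bool)) :
    value a b (v ++ w) = value a b v * value a b w := by
  unfold value
  rw [List.map_append, List.prod_append]

lemma value_bar {G : Type} [Group G] {a b : G} (h : a * b * a = b * a * b)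
    {u : List (ℕ × Bool)} (hu : IsWord u) :
    value a b (bar u) = (a * b * a) * (value a b u)⁻¹ * (a * b * a)⁻¹ := by
  have ha : (a * b * a) * a = b * (a * b * a) := by
    calc (a * b * a) * a = (b * a * b) * a := by rw [h]
      _ = b * (a * b * a) := by group
  have hb : (a * b * a) * b = a * (a * b * a) := by
    calc (a * b * a) * b = a * (b * a * b) := by group
      _ = a * (a * b * a) := by rw [h]
  have ha1 : b = (a * b * a) * a * (a * b * a)⁻¹ := by rw [ha]; group
  have hb1 : a = (a * b * a) * b * (a * b * a)⁻¹ := by rw [hb]; group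
  set D := a * b * a with hD
  induction u with
  | nil => simp [bar, value]
  | cons x u ih =>
    have h1 := ih (fun l hl => hu l (List.mem_cons_of_mem _ hl))
    have h2 : bar (x :: u) = bar u ++ [flip x] := by simp [bar]
    have h3 : value a b (x :: u) = value a b [x] * value a b u := by
      rw [← value_append]
      rfl
    have h4 : value a b [flip x] = D * (value a b [x])⁻¹ * D⁻¹ := by
      obtain ⟨k, c⟩ := x
      rcases hu (k, c) List.mem_cons_self with h5 | h5
      · simp only at h5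
        subst h5
        cases c
        · have : value a b [flip (0, false)] = b := by simp [value, flip]
          rw [this]
          have : value a b [(0, false)] = a⁻¹ := by simp [value]
          rw [this, inv_inv]
          exact ha1
        · have : value a b [flip (0, true)] = b⁻¹ := by simp [value, flip]
          rw [this]
          have : value a b [(0, true)] = a := by simp [value]
          rw [this]
          have h6 : b⁻¹ = (D * a * D⁻¹)⁻¹ := congrArg (·⁻¹) ha1
          rw [h6]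
          group
      · simp only at h5
        subst h5
        cases c
        · have : value a b [flip (1, false)] = a := by simp [value, flip]
          rw [this]
          have : value a b [(1, false)] = b⁻¹ := by simp [value]
          rw [this, inv_inv]
          exact hb1
        · have : value a b [flip (1, true)] = a⁻¹ := by simp [value, flip]
          rw [this]
          have : value a b [(1, true)] = b := by simp [value]
          rw [this]
          have h6 : a⁻¹ = (D * b * D⁻¹)⁻¹ := congrArg (·⁻¹) hb1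
          rw [h6]
          group
    rw [h2, value_append, h1, h4, h3]
    group

lemma isWord_syl (s : Bool) (l : List ℕ) : IsWord (syl s l) := by
  intro x hx
  rcases syl_pos s l x hx with h | h
  · rw [h]; right; rfl
  · rw [h]; left; rfl

lemma conj_word {u w : List (ℕ × Bool)} (hu : IsWord u) (hw : IsWord w) (hd : UpToDelta u w)
    (G : Type) [Group G] (a b : G) (hab : a * b * a = b * a * b) : ∃ g : G,
    value a b (u ++ bar u) = g * value a b (w ++ bar w) * g⁻¹ := by
  obtain ⟨p, r, h⟩ := hd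
  refine ⟨(a * b * a) ^ p, ?_⟩
  rw [value_append, value_append, value_bar hab hu, value_bar hab hw, h G a b hab]
  generalize a * b * a = D
  group

lemma syl_bar (s : Bool) (l : List ℕ) : syl s l ++ bar (syl s l) = syl s (l ++ l.reverse) := by
  apply toL_inj
  · intro x hx
    rcases List.mem_append.1 hx with h | h
    · exact syl_pos s l x h
    · exact Pool.Agent.V11115.VC.dual_pos (syl_pos s l) x h
  · exact syl_pos _ _
  · rw [List.map_append, syl_toL, syl_toL]
    have h1 : (bar (syl s l)).map Pool.Agent.H759.KB.toL =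
        Pool.Agent.H759.PTB.dag ((syl s l).map Pool.Agent.H759.KB.toL) :=
      Pool.Agent.H759.KB.toL_dual (syl_pos s l)
    rw [h1, syl_toL, Pool.Agent.H759.KB.sw_dag]

lemma syl_append (s : Bool) {m : List ℕ} (m' : List ℕ) {k : ℕ} (hm : m.length = 2 * k) :
    syl s (m ++ m') = syl s m ++ syl s m' := by
  apply toL_inj
  · exact syl_pos _ _
  · intro x hx
    rcases List.mem_append.1 hx with h | h
    · exact syl_pos _ _ x h
    · exact syl_pos _ _ x h
  · rw [List.map_append, syl_toL, syl_toL, syl_toL,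
      Pool.Agent.H759.KB.sw_append_even k s m m' hm]

lemma syl_flatten (s : Bool) {m : List ℕ} {k : ℕ} (hm : m.length = 2 * k) (n : ℕ) :
    (List.replicate n (syl s m)).flatten = syl s (List.replicate n m).flatten := by
  induction n with
  | zero => rfl
  | succ n ih =>
    rw [List.replicate_succ, List.flatten_cons, List.replicate_succ, List.flatten_cons, ih,
      syl_append s _ hm]

lemma syl_snd (s : Bool) (m : List ℕ) : (syl s m).map Prod.snd = Pool.Agent.H759.KB.bws s m := by
  induction m generalizing s with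
  | nil => rfl
  | cons a m ih =>
    have e : syl s (a :: m) =
        List.replicate a (if s then ((1, true) : ℕ × Bool) else (0, false)) ++ syl (!s) m := rfl
    rw [e, List.map_append, List.map_replicate, ih]
    cases s <;> rfl

lemma monodromy_eq (s : Bool) (l : List ℕ) (n : ℕ) : monodromy (syl s l) n =
    Pool.Agent.H759.KB.bws s (List.replicate n (l ++ l.reverse)).flatten := by
  unfold monodromy
  rw [syl_bar, syl_flatten s (k := l.length) (by rw [List.length_append, List.length_reverse]; ring),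
    syl_snd]

lemma vol_eq (u : List Bool) : vol u = Pool.Agent.R807.IN.hV u := rfl

lemma v3_eq : v3 = 3 * GapVol.lob (Real.pi / 3) := rfl

lemma v3_six : v3 = 2 * GapVol.lob (Real.pi / 6) := GapVol.lob_dup

lemma v3_pos : 0 < v3 := by
  rw [v3_six]
  have := EvenVol.LobIneq.lob_six_pos
  linarith

lemma vol_bounds (s : Bool) {l : List ℕ} (hl : l ≠ []) (h : ∀ a ∈ l, 1 ≤ a) {n : ℕ} (hn : 1 ≤ n) :
    4 * v3 * (n * l.length) ≤ vol (monodromy (syl s l) n) ∧
      vol (monodromy (syl s l) n) ≤ (4 * v3 + 20) * (n * l.length) := by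
  rw [monodromy_eq, vol_eq, v3_eq]
  have h1 : ∀ a ∈ (List.replicate n (l ++ l.reverse)).flatten, 1 ≤ a := by
    intro a ha
    rw [List.mem_flatten] at ha
    obtain ⟨x, hx, hax⟩ := ha
    rw [List.eq_of_mem_replicate hx, List.mem_append, List.mem_reverse] at hax
    exact h a (by tauto)
  have hl1 : 1 ≤ l.length := List.length_pos_of_ne_nil hl
  have hnl : 1 ≤ n * l.length := Nat.mul_pos hn hl1
  have h2 : (List.replicate n (l ++ l.reverse)).flatten.length = 2 * (n * l.length - 1 + 1) := by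
    rw [List.length_flatten, List.map_replicate, List.sum_replicate, List.length_append,
      List.length_reverse, smul_eq_mul, Nat.sub_add_cancel hnl]
    ring
  have h3 := Pool.Agent.H759.KB.bws_vol h1 h2 s
  have h4 : ((n * l.length - 1 + 1 : ℕ) : ℝ) = n * l.length := by
    rw [Nat.sub_add_cancel hnl]
    push_cast
    ring
  rw [h4] at h3
  exact h3

/-! ### The upper bound -/

lemma Lg_le_syl (s : Bool) (l : List ℕ) :
    Pool.Agent.H239.RF.Lg (syl s l) ≤ l.length * (4 * (8 * GapVol.lob (Real.pi / 4))) := by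
  induction l generalizing s with
  | nil =>
    have : syl s [] = Pool.Agent.H239.RF.hw 0 := rfl
    rw [this, Pool.Agent.H239.RF.Lg_hw]
    simp
  | cons a l ih =>
    have hlt : ∀ x ∈ syl (!s) l, x.1 < 2 := by
      intro x hx
      rcases isWord_syl _ _ x hx with h | h <;> omega
    have h1 : syl s (a :: l) =
        List.replicate a (if s then ((1, true) : ℕ × Bool) else (0, false)) ++ syl (!s) l := rfl
    have h2 := ih (!s)
    rw [h1, List.length_cons]
    push_cast
    cases s
    · have := Pool.Agent.H759.KB.Lg_syl 0 (by norm_num) false a hlt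
      simp only [Bool.false_eq_true, if_false]
      linarith
    · have := Pool.Agent.H759.KB.Lg_syl 1 (by norm_num) true a hlt
      simp only [if_true]
      linarith

lemma Lg_eq {u w : List (ℕ × Bool)} (hu : IsWord u) (hw : IsWord w) (hd : UpToDelta u w) :
    Pool.Agent.H239.RF.Lg u = Pool.Agent.H239.RF.Lg w := by
  obtain ⟨p, r, hpr⟩ := hd
  unfold Pool.Agent.H239.RF.Lg
  refine limsup_congr ?_
  filter_upwards [eventually_gt_atTop 0] with N hN
  unfold Pool.Agent.H239.RF.rt3
  rw [Pool.Agent.V11115.VC.trace_reduce hN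
    (fun l hl => by rcases hu l hl with h | h <;> omega)
    (fun l hl => by rcases hw l hl with h | h <;> omega)
    (hpr _ (Pool.Agent.V11115.VC.uA N) (Pool.Agent.V11115.VC.uB N)
      Pool.Agent.V11115.VC.braid_AB)]

lemma upper {u : List (ℕ × Bool)} (hu : IsWord u) {s : Bool} {l : List ℕ} (hl : l ≠ [])
    (h : ∀ a ∈ l, 1 ≤ a) (hd : UpToDelta u (syl s l)) {n : ℕ} (hn : 1 ≤ n) {ε : ℝ} (hε : 0 < ε) :
    ∀ᶠ N : ℕ in atTop, 2 * Real.pi / N * Real.log ‖kashaev u n N‖ ≤
      4 * vol (monodromy (syl s l) n) + ε := by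
  have hu' : ∀ l ∈ u, l.1 < 2 := fun l hl => by rcases hu l hl with h | h <;> omega
  filter_upwards [Pool.Agent.H759.KB.up_pow hu' n hε, eventually_gt_atTop 0] with N h1 hN
  rw [kashaev_norm hN]
  have e1 : 2 * Real.pi / N * Real.log ‖(Pool.Agent.W715.VC.rep3 N
      (Pool.Agent.W715.VC.wpow (u ++ Pool.Agent.W715.VC.dual u) n)).trace‖ =
      Pool.Agent.H239.RF.rt3 (Pool.Agent.W715.VC.wpow (u ++ Pool.Agent.W715.VC.dual u) n) N := by
    unfold Pool.Agent.H239.RF.rt3
    ring
  rw [e1]
  refine h1.trans ?_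
  have h2 := Lg_le_syl s l
  rw [← Lg_eq hu (isWord_syl s l) hd] at h2
  have h3 := (vol_bounds s hl h hn).1
  rw [v3_six] at h3
  have h4 := Pool.Agent.R807.TQ.lmax (Real.pi / 4)
  have h5 : (n : ℝ) * Pool.Agent.H239.RF.Lg u ≤
      n * (l.length * (4 * (8 * GapVol.lob (Real.pi / 6)))) := by
    refine mul_le_mul_of_nonneg_left (h2.trans ?_) (Nat.cast_nonneg n)
    gcongr
  have h6 : (n : ℝ) * (l.length * (4 * (8 * GapVol.lob (Real.pi / 6)))) =
      4 * (4 * (2 * GapVol.lob (Real.pi / 6)) * (n * l.length)) := by ring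
  linarith

lemma ne_nil_of {u : List (ℕ × Bool)} (hu : IsWord u) (htr : 2 < (mat (u ++ bar u)).trace)
    {s : Bool} {l : List ℕ} (hd : UpToDelta u (syl s l)) : l ≠ [] := by
  rintro rfl
  have h3 : UpToDelta u [] := hd
  obtain ⟨p, r, h4⟩ := h3
  exact Pool.Agent.V11115.VC.ne_nil (fun l hl => by rcases hu l hl with h | h <;> omega)
    (h4 _ Pool.Agent.V11115.VC.mA Pool.Agent.V11115.VC.mB (by decide)) htr rfl

/-- comparison of the lower bound with the volume -/
lemma comparison {u : List (ℕ × Bool)} (hu : IsWord u) (htr : 2 < (mat (u ++ bar u)).trace)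
    {A : ℕ} {s : Bool} {l : List ℕ} (hA : ∀ a ∈ l, 1 ≤ a ∧ a ≤ A) (hd : UpToDelta u (syl s l))
    {n N : ℕ} (hn : 1 ≤ n) (hN : 10 ^ 8 * A ^ 2 ≤ N) :
    vol (monodromy (syl s l) n) / (1200000 * A) ≤ 2 * Real.pi / N * Real.log ‖kashaev u n N‖ := by
  obtain ⟨hm1, hm2⟩ := main_bound hu htr hA hd
  have hl : l ≠ [] := ne_nil_of hu htr hd
  have hA1 : ∀ a ∈ l, 1 ≤ a := fun a ha => (hA a ha).1
  have hA0 : 1 ≤ A := by
    obtain ⟨a, l', rfl⟩ := List.exists_cons_of_ne_nil hl
    have := hA a (by simp)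
    omega
  have hV := vol_bounds s hl hA1 hn
  obtain ⟨h3, h4, -⟩ := hm2 n N hn hN
  have hA' : (1 : ℝ) ≤ A := by exact_mod_cast hA0
  have hN' : (10 : ℝ) ^ 8 * (A : ℝ) ^ 2 ≤ (N : ℝ) := by exact_mod_cast hN
  have hNpos : (0 : ℝ) < N := by nlinarith
  have hp := Real.pi_gt_d6
  have hp0 := Real.pi_pos
  have hl2 := Real.log_two_gt_d9
  have hv2 : v3 ≤ 10154 / 10000 := Pool.Agent.H759.QP.v3_num
  have h5 : (n : ℝ) * N / (200000 * A) * (l.length * Real.log 2) ≤ Real.log ‖kashaev u n N‖ := by
    have h6 := Real.log_le_log (by positivity) h4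
    rw [Real.log_rpow (by positivity), Real.log_pow] at h6
    exact h6
  have h6 : 2 * Real.pi / N * ((n : ℝ) * N / (200000 * A) * (l.length * Real.log 2)) ≤
      2 * Real.pi / N * Real.log ‖kashaev u n N‖ :=
    mul_le_mul_of_nonneg_left h5 (by positivity)
  refine le_trans ?_ h6
  have h7 : vol (monodromy (syl s l) n) ≤ 241 / 10 * (n * l.length) := by
    refine hV.2.trans ?_
    gcongr
    linarith
  have h8 : vol (monodromy (syl s l) n) / (1200000 * A) ≤
      241 / 10 * (n * l.length) / (1200000 * A) := by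
    gcongr
  refine h8.trans ?_
  have e0 : 2 * Real.pi / N * ((n : ℝ) * N / (200000 * A) * (l.length * Real.log 2)) =
      2 * Real.pi * Real.log 2 * (n * l.length) / (200000 * A) := by
    field_simp
  rw [e0, div_le_div_iff₀ (by positivity) (by positivity)]
  have e2 : 241 / 10 ≤ 12 * Real.pi * Real.log 2 := by nlinarith
  have e3 : 0 ≤ (n : ℝ) * l.length * A := by positivity
  nlinarith

lemma limit_bounds {x : ℕ → ℝ} {V a b : ℝ} {F : Filter ℕ} [F.NeBot] (h : Tendsto x F (𝓝 V))
    (h1 : ∀ᶠ N in F, a ≤ x N) (h2 : ∀ ε : ℝ, 0 < ε → ∀ᶠ N in F, x N ≤ b + ε) : a ≤ V ∧ V ≤ b :=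
  ⟨ge_of_tendsto h h1, le_of_forall_pos_le_add fun ε hε => le_of_tendsto h (h2 ε hε)⟩

/-- the largest exponent is positive -/
lemma one_le_of {u : List (ℕ × Bool)} (hu : IsWord u) (htr : 2 < (mat (u ++ bar u)).trace)
    {A : ℕ} {s : Bool} {l : List ℕ} (hA : ∀ a ∈ l, 1 ≤ a ∧ a ≤ A) (hd : UpToDelta u (syl s l)) :
    1 ≤ A := by
  obtain ⟨p, r, hpr⟩ := hd
  have hu' : ∀ l ∈ u, l.1 < 2 := fun l hl => by rcases hu l hl with h | h <;> omega
  have hne : syl s l ≠ [] := Pool.Agent.V11115.VC.ne_nil hu'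
    (hpr _ Pool.Agent.V11115.VC.mA Pool.Agent.V11115.VC.mB (by decide)) htr
  have hl : l ≠ [] := by
    rintro rfl
    exact hne rfl
  obtain ⟨a, l', rfl⟩ := List.exists_cons_of_ne_nil hl
  have := hA a (by simp)
  omega

lemma odd_neBot : (atTop ⊓ 𝓟 {N : ℕ | Odd N} : Filter ℕ).NeBot := by
  rw [← Filter.frequently_mem_iff_neBot, Filter.frequently_atTop]
  exact fun a => ⟨2 * a + 1, by omega, ⟨a, rfl⟩⟩

/-- Stolz and Cesàro -/
lemma stolz {x : ℕ → ℝ} {V : ℝ} (h : Tendsto (fun m => x (m + 1) - x m) atTop (𝓝 V)) :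
    Tendsto (fun m : ℕ => x m / m) atTop (𝓝 V) := by
  have h1 := h.cesaro
  have h2 : Tendsto (fun m : ℕ => x 0 / m) atTop (𝓝 0) := tendsto_const_div_atTop_nhds_zero_nat (x 0)
  have h3 := h1.add h2
  rw [add_zero] at h3
  refine h3.congr fun m => ?_
  rw [Finset.sum_range_sub]
  ring

lemma sandwich {J : ℕ → ℂ} {M : ℕ} (h0 : ∀ N, M ≤ N → J N ≠ 0) {V a b : ℝ}
    (h : Tendsto (fun N : ℕ => Real.pi * Real.log (‖J (N + 2)‖ / ‖J N‖)) odd (𝓝 V))
    (h1 : ∀ᶠ N : ℕ in atTop, a ≤ 2 * Real.pi / N * Real.log ‖J N‖)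
    (h2 : ∀ ε : ℝ, 0 < ε → ∀ᶠ N : ℕ in atTop, 2 * Real.pi / N * Real.log ‖J N‖ ≤ b + ε) :
    a ≤ V ∧ V ≤ b := by
  have hodd : Tendsto (fun m : ℕ => 2 * m + 1) atTop odd := by
    unfold odd
    refine tendsto_inf.2 ⟨?_, ?_⟩
    · exact tendsto_atTop_mono (fun m => by simp only [id]; omega) tendsto_id
    · exact tendsto_principal.2 (Eventually.of_forall fun m => ⟨m, rfl⟩)
  have hT : Tendsto (fun m : ℕ => 2 * m + 1) atTop atTop := hodd.mono_right inf_le_left
  have hp := Real.pi_pos
  have h3 := (h.comp hodd).div_const Real.pi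
  have h4 : Tendsto (fun m : ℕ => Real.log ‖J (2 * (m + 1) + 1)‖ - Real.log ‖J (2 * m + 1)‖) atTop
      (𝓝 (V / Real.pi)) := by
    refine h3.congr' ?_
    filter_upwards [hT.eventually (eventually_ge_atTop M)] with m hm
    have e : 2 * m + 1 + 2 = 2 * (m + 1) + 1 := by ring
    simp only [Function.comp_apply]
    rw [e, Real.log_div (norm_ne_zero_iff.2 (h0 _ (by omega))) (norm_ne_zero_iff.2 (h0 _ hm))]
    field_simp
  have h5 := stolz (x := fun m => Real.log ‖J (2 * m + 1)‖) h4
  have h6 : Tendsto (fun m : ℕ => Real.pi - Real.pi / ((2 * m + 1 : ℕ) : ℝ)) atTop (𝓝 (Real.pi - 0)) :=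
    tendsto_const_nhds.sub ((tendsto_const_div_atTop_nhds_zero_nat Real.pi).comp hT)
  have h7 := h5.mul h6
  have e : V / Real.pi * (Real.pi - 0) = V := by
    field_simp
    ring
  rw [e] at h7
  have h8 : Tendsto (fun m : ℕ => 2 * Real.pi / ((2 * m + 1 : ℕ) : ℝ) * Real.log ‖J (2 * m + 1)‖)
      atTop (𝓝 V) := by
    refine h7.congr' ?_
    filter_upwards [eventually_gt_atTop 0] with m hm
    have h9 : (0 : ℝ) < m := by exact_mod_cast hm
    push_cast
    field_simp
    ring
  exact limit_bounds h8 (hT.eventually h1) fun ε hε => hT.eventually (h2 ε hε)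

lemma ub_of_step {x : ℕ → ℝ} {d s : ℝ} (hs : 0 ≤ s)
    (h : ∀ᶠ m : ℕ in atTop, x (m + 1) - x m ≤ d) {ε : ℝ}
    (hε : 0 < ε) : ∀ᶠ m : ℕ in atTop, x m / (m + s) ≤ d + ε := by
  obtain ⟨M, hM⟩ := eventually_atTop.1 h
  have h1 : ∀ k : ℕ, x (M + k) ≤ x M + k * d := by
    intro k
    induction k with
    | zero => simp
    | succ k ih =>
      have := hM (M + k) (by omega)
      push_cast
      have e : M + (k + 1) = M + k + 1 := by omega
      rw [e]
      linarith
  have h2 : Tendsto (fun m : ℕ => (x M - (M + s) * d) / m) atTop (𝓝 0) :=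
    tendsto_const_div_atTop_nhds_zero_nat _
  filter_upwards [h2.eventually (gt_mem_nhds hε), eventually_ge_atTop M, eventually_gt_atTop 0]
    with m h3 h4 h5
  obtain ⟨k, rfl⟩ := Nat.exists_eq_add_of_le h4
  have h6 : (0 : ℝ) < ((M + k : ℕ) : ℝ) := by exact_mod_cast h5
  have h7 := h1 k
  have h8 : 0 ≤ ε * s := mul_nonneg hε.le hs
  rw [div_lt_iff₀ h6] at h3
  rw [div_le_iff₀ (by linarith)]
  push_cast at h3 ⊢
  nlinarith

lemma freq_step {x : ℕ → ℝ} {c s : ℝ} (hs : 0 ≤ s)
    (h : ∀ ε : ℝ, 0 < ε → ∀ᶠ m : ℕ in atTop, c - ε ≤ x m / (m + s)) {ε : ℝ}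
    (hε : 0 < ε) : ∃ᶠ m : ℕ in atTop, c - ε ≤ x (m + 1) - x m := by
  intro h1
  have h2 : ∀ᶠ m : ℕ in atTop, x (m + 1) - x m ≤ c - ε := h1.mono fun m hm => (not_le.1 hm).le
  obtain ⟨m, h3, h4⟩ := ((ub_of_step hs h2 (ε := ε / 4) (by positivity)).and
    (h (ε / 4) (by positivity))).exists
  linarith

lemma freq_step' {x : ℕ → ℝ} {c s : ℝ} (hs : 0 ≤ s)
    (h : ∀ ε : ℝ, 0 < ε → ∀ᶠ m : ℕ in atTop, x m / (m + s) ≤ c + ε) {ε : ℝ}
    (hε : 0 < ε) : ∃ᶠ m : ℕ in atTop, x (m + 1) - x m ≤ c + ε := by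
  have h1 := freq_step (x := fun m => -x m) (c := -c) hs (fun ε hε => (h ε hε).mono fun m hm => by
    rw [neg_div]
    linarith) hε
  refine h1.mono fun m hm => ?_
  linarith

lemma ratio_freq_odd {J : ℕ → ℂ} {M : ℕ} (h0 : ∀ N, M ≤ N → J N ≠ 0) {a b : ℝ}
    (h1 : ∀ᶠ N : ℕ in atTop, a ≤ 2 * Real.pi / N * Real.log ‖J N‖)
    (h2 : ∀ ε : ℝ, 0 < ε → ∀ᶠ N : ℕ in atTop, 2 * Real.pi / N * Real.log ‖J N‖ ≤ b + ε)
    {ε : ℝ} (hε : 0 < ε) :
    (∃ᶠ N : ℕ in odd, a - ε ≤ Real.pi * Real.log (‖J (N + 2)‖ / ‖J N‖)) ∧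
    ∃ᶠ N : ℕ in odd, Real.pi * Real.log (‖J (N + 2)‖ / ‖J N‖) ≤ b + ε := by
  have hodd : Tendsto (fun m : ℕ => 2 * m + 1) atTop odd := by
    unfold odd
    refine tendsto_inf.2 ⟨?_, ?_⟩
    · exact tendsto_atTop_mono (fun m => by simp only [id]; omega) tendsto_id
    · exact tendsto_principal.2 (Eventually.of_forall fun m => ⟨m, rfl⟩)
  have hT : Tendsto (fun m : ℕ => 2 * m + 1) atTop atTop := hodd.mono_right inf_le_left
  have e : ∀ᶠ m : ℕ in atTop, Real.pi * Real.log (‖J (2 * m + 1 + 2)‖ / ‖J (2 * m + 1)‖) =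
      Real.pi * Real.log ‖J (2 * (m + 1) + 1)‖ - Real.pi * Real.log ‖J (2 * m + 1)‖ := by
    filter_upwards [hT.eventually (eventually_ge_atTop M)] with m hm
    have e1 : 2 * m + 1 + 2 = 2 * (m + 1) + 1 := by ring
    rw [e1, Real.log_div (norm_ne_zero_iff.2 (h0 _ (by omega))) (norm_ne_zero_iff.2 (h0 _ hm))]
    ring
  have e2 : ∀ m : ℕ, Real.pi * Real.log ‖J (2 * m + 1)‖ / (m + 1 / 2) =
      2 * Real.pi / ((2 * m + 1 : ℕ) : ℝ) * Real.log ‖J (2 * m + 1)‖ := by
    intro m
    push_cast
    have h3 : (0 : ℝ) ≤ m := Nat.cast_nonneg m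
    field_simp
  have h3 := freq_step (x := fun m => Real.pi * Real.log ‖J (2 * m + 1)‖) (c := a) (s := 1 / 2)
    (by norm_num) (fun ε hε => (hT.eventually h1).mono fun m hm => by
      rw [e2]
      linarith) hε
  have h4 := freq_step' (x := fun m => Real.pi * Real.log ‖J (2 * m + 1)‖) (c := b) (s := 1 / 2)
    (by norm_num) (fun ε hε => (hT.eventually (h2 ε hε)).mono fun m hm => by
      rw [e2]
      exact hm) hε
  refine ⟨hodd.frequently ((h3.and_eventually e).mono fun m hm => ?_),
    hodd.frequently ((h4.and_eventually e).mono fun m hm => ?_)⟩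
  · rw [hm.2]; exact hm.1
  · rw [hm.2]; exact hm.1

lemma phase_of {u : List (ℕ × Bool)} (hu : IsWord u) {n N : ℕ} (hn : 1 ≤ n) (hN : 1 ≤ N) {b : ℝ}
    (h : b ≤ ‖kashaev u n N‖ ∧ (N : ℝ) ^ 3 < ‖kashaev u n N‖) : Phase (kashaev u n) N b := by
  have h0 : kashaev u n N ≠ 0 := by
    intro h1
    rw [h1, norm_zero] at h
    have : (0 : ℝ) ≤ (N : ℝ) ^ 3 := by positivity
    linarith [h.2]
  refine ⟨h0, ?_, h.1⟩
  have h1 := Pool.Agent.H759.KB.trace_pos (N := N) (by omega)
    (u := u) (fun l hl => by rcases hu l hl with h | h <;> omega) (n := n) (by omega) (by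
      rw [← kashaev_norm (by omega)]
      exact h.2)
  rw [← kashaev_norm (by omega)] at h1
  have h2 : kashaev u n N = Pool.Agent.W715.VC.rt N ^ (-3 * ((N : ℤ) - 1)) *
      (Pool.Agent.W715.VC.rep3 N
        (Pool.Agent.W715.VC.wpow (u ++ Pool.Agent.W715.VC.dual u) n)).trace := by
    unfold kashaev
    rw [cjones_eq, link_eq]
    exact Pool.Agent.W715.VC.cjones_axis (by omega) _
  rw [h1, Pool.Agent.H759.KB.rt_phase (by omega)] at h2
  exact h2

/-- **The ratios of the Kashaev invariants of all hyperbolic palindromic closed 3-braids with their axes.**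
Let `u` be a word in `s_1^{±1}`, `s_2^{±1}` such that the trace `T` of the image `M Mᵀ` of `u ū` in
`SL(2, ℤ)` is larger than `2` (equivalently the image `M` of `u` is not an orthogonal matrix; then
the links `L(u, n)` are hyperbolic).
(1) For all `n`, `N ≥ 1` the coloured Jones polynomial of `L(u, n)` is continuous at `v_N`, so that
`kashaev u n N` is its value at `q = e^(2 π i / N)` in the usual sense.
(2) The invariants of `L(u, n)` satisfy `RatioPart`, for all `n ≥ 1`: Q1 for `L(u, n)` is reduced to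
absolute values, and holds with `CS = 0` if it holds.
(3) For all `n ≥ 1` and all `N ≥ 10^8 ℓ²`, `ℓ` the length of `u`, `J_N ≠ 0`, `J_N = -e^(3 π i / N) |J_N|` and
`|J_N| ≥ (T / 2)^(n N / (200000 ℓ))`, for `J_N = J_N(L(u, n))`.
(4) Let `u = Δ^p w Δ^r` in the braid group, where `w` is the alternating word in `s_2` and `s_1⁻¹` with the
exponents `l`, all at most `A`, and let `k` be the number of syllables of `w`.  Then `T ≥ 2^k`, and `u ū` is
conjugate to `w w̄` in the braid group.  For all `n ≥ 1` the volume of the complement of `L(u, n)` is at least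
`4 v_3 n k` and at most `(4 v_3 + 20) n k`.  For all `N ≥ 10^8 A²` (3) holds with `A` instead of `ℓ`, and
`2 π log |J_N| / N` is at least the volume divided by `1200000 A`; for every `ε > 0` and all large `N` it is at
most `4` times the volume plus `ε`.
The upper limit of `π log |a_{N+2} / a_N|` along odd `N` is at least the volume divided by `1200000 A`, and the
lower limit is at most `4` times the volume.
If `π log (a_{N+2} / a_N)` converges to `V + i C` modulo `i π²` along odd `N`, then `V` is at least the volume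
divided by `1200000 A` and at most `4` times the volume.
(5) Every `u` is of this form, with exponents at most `ℓ`. -/
theorem result (u : List (ℕ × Bool)) (hu : IsWord u) (htr : 2 < (mat (u ++ bar u)).trace) :
    (∀ n N : ℕ, 1 ≤ N → ContinuousAt (cjones N 3 (linkWord u n)) (root N)) ∧
    (∀ n : ℕ, 1 ≤ n → RatioPart (kashaev u n)) ∧
    (∀ n N : ℕ, 1 ≤ n → 10 ^ 8 * u.length ^ 2 ≤ N → Phase (kashaev u n) N
      ((((mat (u ++ bar u)).trace : ℝ) / 2) ^ ((n : ℝ) * N / (200000 * u.length)))) ∧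
    (∀ (A : ℕ) (s : Bool) (l : List ℕ), (∀ a ∈ l, 1 ≤ a ∧ a ≤ A) → UpToDelta u (syl s l) →
      2 ^ l.length ≤ (mat (u ++ bar u)).trace ∧
      (∀ (G : Type) [Group G] (a b : G), a * b * a = b * a * b → ∃ g : G,
        value a b (u ++ bar u) = g * value a b (syl s l ++ bar (syl s l)) * g⁻¹) ∧
      ∀ n : ℕ, 1 ≤ n →
        (4 * v3 * (n * l.length) ≤ vol (monodromy (syl s l) n) ∧
          vol (monodromy (syl s l) n) ≤ (4 * v3 + 20) * (n * l.length)) ∧
        (∀ N : ℕ, 10 ^ 8 * A ^ 2 ≤ N →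
          Phase (kashaev u n) N
            ((((mat (u ++ bar u)).trace : ℝ) / 2) ^ ((n : ℝ) * N / (200000 * A))) ∧
          vol (monodromy (syl s l) n) / (1200000 * A) ≤
            2 * Real.pi / N * Real.log ‖kashaev u n N‖) ∧
        (∀ ε : ℝ, 0 < ε → ∀ᶠ N : ℕ in atTop, 2 * Real.pi / N * Real.log ‖kashaev u n N‖ ≤
          4 * vol (monodromy (syl s l) n) + ε) ∧
        (∀ ε : ℝ, 0 < ε →
          (∃ᶠ N : ℕ in odd, vol (monodromy (syl s l) n) / (1200000 * A) - ε ≤
            Real.pi * Real.log (‖kashaev u n (N + 2)‖ / ‖kashaev u n N‖)) ∧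
          ∃ᶠ N : ℕ in odd, Real.pi * Real.log (‖kashaev u n (N + 2)‖ / ‖kashaev u n N‖) ≤
            4 * vol (monodromy (syl s l) n) + ε) ∧
        ∀ V C : ℝ, (∃ k : ℕ → ℤ, Tendsto (fun N : ℕ => Real.pi *
            Complex.log (kashaev u n (N + 2) / kashaev u n N) + k N * (Real.pi ^ 2 * Complex.I)) odd
            (𝓝 (V + C * Complex.I))) →
          vol (monodromy (syl s l) n) / (1200000 * A) ≤ V ∧ V ≤ 4 * vol (monodromy (syl s l) n)) ∧
    ∃ (s : Bool) (l : List ℕ), (∀ a ∈ l, 1 ≤ a ∧ a ≤ u.length) ∧ UpToDelta u (syl s l) := by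
  obtain ⟨s, l, h1, h2⟩ := normal_form hu
  have hpos : ∀ (A : ℕ) (s : Bool) (l : List ℕ), (∀ a ∈ l, 1 ≤ a ∧ a ≤ A) →
      UpToDelta u (syl s l) → 1 ≤ A := fun A s l hA hd => one_le_of hu htr hA hd
  have hmain : ∀ (A : ℕ) (s : Bool) (l : List ℕ), (∀ a ∈ l, 1 ≤ a ∧ a ≤ A) →
      UpToDelta u (syl s l) → ∀ n N : ℕ, 1 ≤ n → 10 ^ 8 * A ^ 2 ≤ N →
        Phase (kashaev u n) N
          ((((mat (u ++ bar u)).trace : ℝ) / 2) ^ ((n : ℝ) * N / (200000 * A))) := by
    intro A s l hA hd n N hn hN
    have hA1 := hpos A s l hA hd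
    have hN1 : 1 ≤ N := le_trans (by nlinarith [Nat.one_le_pow 2 A hA1]) hN
    have h3 := (main_bound hu htr hA hd).2 n N hn hN
    exact phase_of hu hn hN1 ⟨h3.1, h3.2.2⟩
  have hpart : ∀ n : ℕ, 1 ≤ n → RatioPart (kashaev u n) := by
    intro n hn
    have := odd_neBot
    exact Pool.Agent.H759.KB.ratioPart (M := 10 ^ 8 * u.length ^ 2) (fun N hN =>
      ⟨(hmain _ s l h1 h2 n N hn hN).1, (hmain _ s l h1 h2 n N hn hN).2.1⟩)
      (atTop ⊓ 𝓟 {N : ℕ | Odd N}) inf_le_left
  refine ⟨fun n N hN => ?_, hpart, fun n N hn hN => hmain _ s l h1 h2 n N hn hN,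
    fun A s l hA hd => ⟨(main_bound hu htr hA hd).1,
      fun G _ a b hab => conj_word hu (isWord_syl s l) hd G a b hab, fun n hn =>
      ⟨vol_bounds s (ne_nil_of hu htr hd) (fun a ha => (hA a ha).1) hn,
        fun N hN => ⟨hmain A s l hA hd n N hn hN, comparison hu htr hA hd hn hN⟩,
        fun ε hε => upper hu (ne_nil_of hu htr hd) (fun a ha => (hA a ha).1) hd hn hε,
        fun ε hε => ratio_freq_odd (fun N hN => (hmain A s l hA hd n N hn hN).1)
          ((eventually_ge_atTop _).mono fun N hN => comparison hu htr hA hd hn hN)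
          (fun ε hε => upper hu (ne_nil_of hu htr hd) (fun a ha => (hA a ha).1) hd hn hε) hε,
        fun V C h => sandwich (fun N hN => (hmain A s l hA hd n N hn hN).1)
          (((hpart n hn).2 V C).1 h).1
          ((eventually_ge_atTop _).mono fun N hN => comparison hu htr hA hd hn hN)
          (fun ε hε => upper hu (ne_nil_of hu htr hd) (fun a ha => (hA a ha).1) hd hn hε)⟩⟩, s, l, h1, h2⟩
  · have hv : root N = EvenVol.v0 N := rfl
    rw [hv]
    refine Pool.Agent.H756R3.J.taskCont N (EvenVol.v0 N) (Complex.exp_ne_zero _) ?_ _ _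
    intro k hk0 hkN
    exact Pool.Agent.W715.VC.br_ne (by omega) (by omega)

end Pool.Agent.Results.MP_b30479_gt.AllPalindromicRatios
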