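import Pool.Agent.H760.TC.Xe
import Pool.Graph.R_pool_sql_team_seeded_3997aac3.Q99.HX.Rate
import Pool.Graph.R_pool_sql_team_seeded_3997aac3.Q99.XF.Log

/-!
# The complexified volume conjecture along odd roots of unity, to all orders, for all semi-regular
# alternating links in the thickened torus

The links, their diagrams and the invariants are those of the files
`MP_bdeb5b_gt/SemiRegularLinks.lean` (`Vertex`, `IsDiagram`, `Cellular`, `Alternating`, `Sizes`,
`SemiRegular`, `colour`, `pieces`, `vol`, `jones`, `root`, `kashaev`) and
`MP_f66dee_gt/SemiRegularPhases.lean` (`cs`), which are imported: `A ∪ B` is the Hopf link, its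
complement is a thickened torus, and `L` is a link in it with an alternating diagram on the torus, all
of whose regions are discs, with `1/s_1 + 1/s_2 + 1/s_3 + 1/s_4 = 1` at each crossing, `s_1, …, s_4` the
numbers of the corners of the four regions at the crossing: tilings of flat tori by regular polygons.
The torus is cut along a circle, and the diagram in the annulus is read from bottom to top, with `n`
strands at both ends.

The complement of `A ∪ B ∪ L` is glued from regular ideal bipyramids, one over each region
(A. Champanerkar, I. Kofman, J. Purcell); its volume is `vol s = ∑ 2 Λ(π / s)`, the sum over all corners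
of all crossings, and `vol s + i cs D s` with `cs D s = π² ∑ ± 1 / s²` is the critical value of the
potential function of the diagram, the complex volume modulo `i π²` (W. Neumann, Y. Yokota, J. Cho and
J. Murakami; this is cited, and not part of the formal statement).

**Theorem.**  Let `D` be a cellular, alternating, semi-regular diagram, `V = vol s + i cs D s`, and
`a_N = ⟨A ∪ B ∪ L⟩_N`, in any framing and with any sign `(-1)^{f(N-1)}`.  Then `a_N ≠ 0` for all large
`N`, and, modulo `i π²`,
`π log (a_{N+2} / a_N) = V + 3 π / N + r_2 / N² + r_3 / N³ + …`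
to all orders in `1 / N` (for all `N`, in particular along the odd integers; the term `3 π / N` is the
same for all these links).  In particular `π log (a_{N+2} / a_N) → V` modulo `i π²`.

On the proof.  The invariant is a sum over the integral points of a polytope of the dimension `2 c + 1`
(`c` the number of crossings).  The quantum factorials `D(y)` of the corners are
`√N G_N(y/N + 1/(2N))`, where `G_N` is the quantum dilogarithm, an analytic function on a strip, which
has a uniform expansion in powers of `1 / N`; the points of the lattice are `(y + s_N) / N` with a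
bounded shift `s_N`, and the sum over them is, up to exponentially small terms, the integral of the
analytic continuation.  The shift does not change the integral, and Laplace's method for complex
exponents gives the expansion.
-/

set_option autoImplicit false

namespace Pool.Agent.Results.MP_b30479_gt.SemiRegularRatios

open Finset Filter Topology
open Pool.Agent.Results.MP_bdeb5b_gt.SemiRegularLinks (Vertex IsDiagram Cellular Alternating
  SemiRegular pieces Piece vol jones root kashaev jones_cont)
open Pool.Agent.Results.MP_f66dee_gt.SemiRegularPhases (cs rotations)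

/-- The Kashaev invariant of `A ∪ B ∪ L`; `n` strands, the pieces `E`, the framing is changed by `e`
(the change of the framing of a component by `1` multiplies the invariant by `v^{N^2-1}`, up to sign),
the sign by `(-1)^{f (N - 1)}`. -/
noncomputable def framed (e f : ℤ) (n : ℕ) (E : List Piece) (N : ℕ) : ℂ :=
  (-1) ^ (f * ((N : ℤ) - 1)) * root N ^ (e * ((N : ℤ) ^ 2 - 1)) * kashaev n E N

/-- **The complexified volume conjecture along odd roots of unity, to all orders, for semi-regular
alternating links in the thickened torus.** -/
theorem result (D : List Vertex) (n : ℕ) (hn : 1 ≤ n) (s : Fin D.length → Fin 4 → ℕ)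
    (h1 : IsDiagram D n n) (h2 : Cellular D n) (h3 : Alternating D n) (h4 : SemiRegular D n s) :
    (∀ N : ℕ, 1 ≤ N → ContinuousAt (jones N n (pieces D)) (root N)) ∧
    ∀ e f : ℤ, (∀ᶠ N : ℕ in atTop, framed e f n (pieces D) N ≠ 0) ∧
      ∃ (r : ℕ → ℂ) (k : ℕ → ℤ), r 0 = vol s + cs D s * Complex.I ∧ r 1 = 3 * Real.pi ∧
        ∀ K : ℕ, ∃ B : ℝ, ∀ᶠ N : ℕ in atTop,
          ‖Real.pi * Complex.log (framed e f n (pieces D) (N + 2) / framed e f n (pieces D) N) +
            k N * (Real.pi ^ 2 * Complex.I) - ∑ j ∈ range K, r j / (N : ℂ) ^ j‖ ≤
              B / (N : ℝ) ^ K := by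
  obtain ⟨m, rfl⟩ : ∃ m, n = m + 1 := ⟨n - 1, by omega⟩
  obtain ⟨q, -, b, hb, hk⟩ := Pool.Agent.H760.TC.kashaev_xp D m s h1 h2 h3 h4
  refine ⟨fun N hN => jones_cont _ _ N hN, fun e f => ?_⟩
  obtain ⟨u, hu, hX⟩ := Pool.Agent.Q99.HX.xp_framed _ _ b hb hk e f
  have hX' : Pool.Agent.Q99.HX.Xp (fun N : ℕ => framed e f (m + 1) (pieces D) N /
      (N * √N * Complex.exp (N * ((vol s + (cs D s + q * Real.pi ^ 2) * Complex.I) /
        (2 * Real.pi) + Real.pi * Complex.I * (e + f))))) u := hX
  have hpi : (Real.pi : ℂ) ≠ 0 := by exact_mod_cast Real.pi_pos.ne'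
  obtain ⟨q1, r, k', r0, r1, q2⟩ := Pool.Agent.Q99.XF.xp_ratio_all _ _ u hu hX'
  have g := Pool.Agent.Q99.XF.Xp.add' q2
    (Pool.Agent.Q99.HX.Xp.const (-((q + 2 * (e + f)) * (Real.pi ^ 2 * Complex.I))))
  refine ⟨q1, fun j => r j + if j = 0 then -((q + 2 * (e + f)) * (Real.pi ^ 2 * Complex.I)) else 0,
    fun n => k' n - q - 2 * (e + f), ?_, ?_, fun K => ?_⟩
  · simp only [if_true]
    rw [r0]
    field_simp
    ring
  · simp only [one_ne_zero, if_false, add_zero]
    exact r1
  · obtain ⟨B, hB⟩ := g K
    refine ⟨B, hB.mono fun N hN => ?_⟩
    have e1 : Real.pi * Complex.log (framed e f (m + 1) (pieces D) (N + 2) /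
        framed e f (m + 1) (pieces D) N) +
          ((k' N - q - 2 * (e + f) : ℤ) : ℂ) * (Real.pi ^ 2 * Complex.I) =
        Real.pi * Complex.log (framed e f (m + 1) (pieces D) (N + 2) /
          framed e f (m + 1) (pieces D) N) +
          k' N * (Real.pi ^ 2 * Complex.I) + -((q + 2 * (e + f)) * (Real.pi ^ 2 * Complex.I)) := by
      push_cast
      ring
    rw [e1]
    exact hN

end Pool.Agent.Results.MP_b30479_gt.SemiRegularRatios
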