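import Pool.Agent.H760.TX.Fx
import Pool.Agent.Results.MP_f66dee_gt.ToroidalMixedPhases
import Pool.Graph.R_pool_sql_team_seeded_3997aac3.Q99.HX.Rate
import Pool.Graph.R_pool_sql_team_seeded_3997aac3.Q99.XF.Log

/-!
# The complexified volume conjecture along odd roots of unity, to all orders, for links in the
# thickened torus with circles around some twist regions

The links, their diagrams, the angle structures, the gluing equations, the invariants and the phases
are those of the files `MP_bdeb5b_gt/ToroidalMixedAugmentation.lean` (`Vertex`, `IsDiagram`,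
`Cellular`, `pieces`, `IsSolution`, `flux`, `Angles`, `General`, `angleVolume`, `Geometric`,
`Dominant`, `Hyperbolic`, `deviation`, `volume`, `jones`, `root`, `kashaev`) and
`MP_f66dee_gt/ToroidalMixedPhases.lean` (`potential`, `cs`, `rotations`), which this file imports.
`A ∪ B` is the Hopf link, its complement is a thickened torus, and `L` is a link in it, given by a
`4`-valent graph on the torus, all of whose regions are discs, with a twist region at each vertex.
Some of the twist regions have circles around them (`c k = true`) and any number of crossings; the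
numbers of crossings of the other ones are large.  The torus is cut along a circle, and the diagram in
the annulus is read from bottom to top, with `n` strands at both ends.

The complex volume of the complement of `A ∪ B ∪ L` is `volume x + i cs` modulo `i π²`, where `x` is the
solution of the gluing equations near the geometric angles `a` of the fully augmented link, `volume x`
is the sum of the volumes of the ideal tetrahedra, and `cs = 2 π Im (potential) - π² w / 2`, `w` the
number of crossings with signs; the potential is a function whose critical point is `x` (W. Neumann and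
D. Zagier, T. Yoshida, W. Neumann; this is cited, and not part of the formal statement).

**Theorem.**  Let `D` be a cellular diagram.  (0) If there is a positive angle structure, there are
geometric angles `a`.  Let `c` be any set of vertices with circles.  (1) If `a k 0 ≤ 1 / 4` and
`a k 3 ≤ 1 / 4` at all vertices without circle, then `a` is dominant.  (2) If `a` is dominant, then for
all sufficiently small `ρ > 0` there are `M` and `C` such that for all numbers of crossings, which are
`≥ m ≥ M` at the vertices without circle and arbitrary at those with a circle, of arbitrary signs: there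
is exactly one solution `x` of the gluing equations at a distance `< ρ` from `a`, it is complete at the
circles (and `x = a` if there are circles at all vertices), `|volume x - angleVolume a| ≤ C / m²`, and
for `V = volume x + i cs` and `a_N = ⟨A ∪ B ∪ L⟩_N`, in any framing and with any sign `(-1)^{f(N-1)}`:
`a_N ≠ 0` for all large `N` and, modulo `i π²`,
`π log (a_{N+2} / a_N) = V + 3 π / N + r_2 / N² + r_3 / N³ + …`
to all orders in `1 / N` (for all `N`, in particular along the odd integers; the term `3 π / N` is the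
same for all these links).

So the complexified volume conjecture along odd roots of unity is true for these links; among them are
all hyperbolic fully augmented links in the thickened torus (circles at all vertices).
-/

set_option autoImplicit false

namespace Pool.Agent.Results.MP_b30479_gt.ToroidalMixedRatios

open Finset Filter Topology
open Pool.Agent.Results.MP_bdeb5b_gt.ToroidalMixedAugmentation (Vertex IsDiagram Cellular Angles
  General Geometric Dominant IsSolution Hyperbolic flux top lsin deviation crossings angleVolume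
  volume Piece pieces jones root kashaev toV val_eq cell_eq angles_eq jones_cont jones_eq planar_eq cv
  cb cv_cb cb_cv cri_eq dm_eq mx_eq vi_eq fv_eq flux_eq sol_real sol_complex exists_geometric
  dominant)
open Pool.Agent.Results.MP_f66dee_gt.ToroidalMixedPhases (potential cs rotations rotations_eq
  kashaev_eq pot_eq exponent)

/-- The Kashaev invariant of `A ∪ B ∪ L`; `n` strands, the pieces `E`, the framing is changed by `e`
(the change of the framing of a component by `1` multiplies the invariant by `v^{N^2-1}`, up to sign),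
the sign by `(-1)^{f (N - 1)}`. -/
noncomputable def framed (e f : ℤ) (n : ℕ) (E : List Piece) (N : ℕ) : ℂ :=
  (-1) ^ (f * ((N : ℤ) - 1)) * root N ^ (e * ((N : ℤ) ^ 2 - 1)) * kashaev n E N

/-- **The complexified volume conjecture along odd roots of unity, to all orders, for links in the
thickened torus with circles around some twist regions.** -/
theorem result (D : List Vertex) (n : ℕ) (hn : 1 ≤ n) (h1 : IsDiagram D n n)
    (h2 : Cellular D n) : ((∃ p ∈ Angles D n, ∀ k j, 0 < p k j) → ∃ a, Geometric D n a) ∧
    ∀ (a : Fin D.length → Fin 6 → ℝ) (c : Fin D.length → Bool), Geometric D n a →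
    ((∀ k, c k = false → a k 0 ≤ 1 / 4 ∧ a k 3 ≤ 1 / 4) → Dominant D n c a) ∧
    (Dominant D n c a →
    ∃ ρ0 : ℝ, 0 < ρ0 ∧ ∀ ρ : ℝ, 0 < ρ → ρ ≤ ρ0 →
    ∃ (M : ℕ) (C : ℝ), 1 ≤ M ∧
    ∀ (t : Fin D.length → Bool × ℕ) (m : ℕ), M ≤ m → (∀ k, c k = false → m ≤ (t k).2) →
    (∀ N : ℕ, 1 ≤ N → ContinuousAt (jones N n (pieces D c t)) (root N)) ∧
    ∃ (x : Fin D.length → Fin 6 → ℂ) (A : List ℝ) (G : List ℂ), Hyperbolic D n a c t x ∧
      IsSolution D n a A 1 ∧ IsSolution D n x G 1 ∧ (∀ k j, ‖x k j - a k j‖ < ρ) ∧
      (∀ x', Hyperbolic D n a c t x' → (∀ k j, ‖x' k j - a k j‖ < ρ) → x' = x) ∧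
      (∀ k, c k = true → deviation (x k) = 0) ∧
      ((∀ k, c k = true) → (∀ k j, x k j = a k j) ∧ (potential D a c t x A G).im = 0) ∧
      volume x = 2 * Real.pi * (potential D a c t x A G).re ∧
      |volume x - angleVolume a| ≤ C / m ^ 2 ∧
      ∀ e f : ℤ, (∀ᶠ N : ℕ in atTop, framed e f n (pieces D c t) N ≠ 0) ∧
        ∃ (r : ℕ → ℂ) (k : ℕ → ℤ), r 0 = volume x + cs D a c t x A G * Complex.I ∧
          r 1 = 3 * Real.pi ∧ ∀ K : ℕ, ∃ B : ℝ, ∀ᶠ N : ℕ in atTop,
            ‖Real.pi * Complex.log (framed e f n (pieces D c t) (N + 2) /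
              framed e f n (pieces D c t) N) + k N * (Real.pi ^ 2 * Complex.I) -
                ∑ j ∈ range K, r j / (N : ℂ) ^ j‖ ≤ B / (N : ℝ) ^ K) := by
  obtain ⟨m', rfl⟩ : ∃ m', n = m' + 1 := ⟨n - 1, by omega⟩
  obtain ⟨k, hC⟩ := cell_eq D m' h2
  have hV := val_eq D _ _ h1
  refine ⟨exists_geometric h1 hC, fun a c h4 => ⟨dominant h1 hC c a h4, fun h5 => ?_⟩⟩
  have hM := mx_eq h1 hC a h4
  obtain ⟨q, hq, ρ0, hρ0, H⟩ := Pool.Agent.H760.TX.phTxx hV hC (cv D c) (cv D a) hM
    ((dm_eq h1 hC c a h4.angles).1 h5)
  refine ⟨ρ0, hρ0, fun ρ hρ hρ' => ?_⟩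
  obtain ⟨W0, C, hW0, G⟩ := H ρ hρ hρ'
  refine ⟨⌈W0⌉₊, C, Nat.one_le_iff_ne_zero.2 (by
    intro h
    have := Nat.ceil_eq_zero.1 h
    linarith), fun t m hm ht => ⟨fun N hN => jones_cont _ _ N hN, ?_⟩⟩
  obtain ⟨x, g1, g2, g3, g6, gv, g4, b, hb, g5⟩ := G (cv D t) m
    (le_trans (Nat.le_ceil W0) (by exact_mod_cast hm)) (fun k hk => by exact_mod_cast ht _ hk)
  obtain ⟨A, hA⟩ : ∃ A, A = Pool.Agent.H760.TT.Gof k m' (D.map toV) (cv D a) := ⟨_, rfl⟩
  obtain ⟨E, hE⟩ : ∃ E, E = Pool.Agent.H760.TT.Gof k m' (D.map toV) x := ⟨_, rfl⟩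
  have hpot : potential D a c t (cb D x) A E = Pool.Agent.H760.TX.PIT k m' (D.map toV) (cv D a)
      (cv D c) (Pool.Agent.Q99.HT.wf (cv D t)) x := by
    have := pot_eq (k := k) (m := m') a c t (cb D x)
    rw [cv_cb, ← hA, ← hE] at this
    exact this
  have hvol : volume (cb D x) = 2 * Real.pi * (potential D a c t (cb D x) A E).re := by
    rw [vi_eq, cv_cb, hpot]
    exact gv
  have hex := exponent a c t (cb D x) A E q hvol
  rw [hpot] at hex
  have hk : Pool.Agent.Q99.HX.Xp (fun N : ℕ => kashaev (m' + 1) (pieces D c t) N /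
      (N * √N * Complex.exp (N * ((volume (cb D x) + (cs D a c t (cb D x) A E +
        q * Real.pi ^ 2) * Complex.I) / (2 * Real.pi))))) b := by
    rw [← hex]
    refine Pool.Agent.Q99.HX.Xp.congr' g5 ?_
    filter_upwards [eventually_ge_atTop 1] with N hN
    rw [kashaev_eq D m' h1 c t N hN]
  refine ⟨cb D x, A, E, (cri_eq h1 hC a h4.angles c t _).2 (by rw [cv_cb]; exact g1), ?_, ?_,
    fun k j => g2 _ j, fun x' h6 h7 => ?_, fun k hk' => ?_, fun hc => ?_, hvol, ?_,
    fun e f => ?_⟩
  · exact (sol_real h1 hC a _ 1).2 ⟨hM.mem.1, hA⟩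
  · refine (sol_complex h1 hC (cb D x) _ 1).2 ⟨?_, ?_⟩
    · rw [cv_cb]
      exact g1.1
    · rw [cv_cb]
      exact hE
  · have := g3 (cv D x') ((cri_eq h1 hC a h4.angles c t x').1 h6) (fun s i => h7 _ i)
    rw [← this, cb_cv]
  · have := g6 (k.cast (List.length_map _).symm) hk'
    exact sub_eq_zero.2 this
  · obtain ⟨a0, -, h0⟩ := Pool.Agent.H760.TT.exists_a0 hV hC _ hM.mem.2.2 hM.mem.1
    have hcc : ∀ s, cv D c s = true := fun s => hc _
    have hxa : (fun s i => (cv D a s i : ℂ)) = x :=
      g3 _ (Pool.Agent.H760.TX.full_crit hM a0 h0 (cv D c) hcc _) fun s i => by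
        rw [sub_self, norm_zero]
        exact hρ
    refine ⟨fun k' j => ?_, ?_⟩
    · rw [← hxa]
      rfl
    · rw [hpot, ← hxa]
      exact Pool.Agent.H760.TX.full_im hM (cv D c) hcc _
  · rw [vi_eq, cv_cb, fv_eq h4.angles]
    exact g4
  obtain ⟨u, hu, hX⟩ := Pool.Agent.Q99.HX.xp_framed _ _ b hb hk e f
  have hX' : Pool.Agent.Q99.HX.Xp (fun N : ℕ => framed e f (m' + 1) (pieces D c t) N /
      (N * √N * Complex.exp (N * ((volume (cb D x) + (cs D a c t (cb D x) A E +
        q * Real.pi ^ 2) * Complex.I) / (2 * Real.pi) + Real.pi * Complex.I * (e + f))))) u := hX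
  have hpi : (Real.pi : ℂ) ≠ 0 := by exact_mod_cast Real.pi_pos.ne'
  obtain ⟨q1, r, k', r0, r1, q2⟩ := Pool.Agent.Q99.XF.xp_ratio_all _ _ u hu hX'
  have g := Pool.Agent.Q99.XF.Xp.add' q2
    (Pool.Agent.Q99.HX.Xp.const (-((q + 2 * (e + f)) * (Real.pi ^ 2 * Complex.I))))
  refine ⟨q1, fun j => r j + if j = 0 then -((q + 2 * (e + f)) * (Real.pi ^ 2 * Complex.I)) else 0,
    fun n => k' n - q - 2 * (e + f), ?_, ?_, fun K => ?_⟩
  · simp only [if_true]
    rw [r0]
    field_simp
    ring
  · simp only [one_ne_zero, if_false, add_zero]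
    exact r1
  · obtain ⟨B, hB⟩ := g K
    refine ⟨B, hB.mono fun N hN => ?_⟩
    have e1 : Real.pi * Complex.log (framed e f (m' + 1) (pieces D c t) (N + 2) /
        framed e f (m' + 1) (pieces D c t) N) +
          ((k' N - q - 2 * (e + f) : ℤ) : ℂ) * (Real.pi ^ 2 * Complex.I) =
        Real.pi * Complex.log (framed e f (m' + 1) (pieces D c t) (N + 2) /
          framed e f (m' + 1) (pieces D c t) N) +
          k' N * (Real.pi ^ 2 * Complex.I) + -((q + 2 * (e + f)) * (Real.pi ^ 2 * Complex.I)) := by
      push_cast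
      ring
    rw [e1]
    exact hN

end Pool.Agent.Results.MP_b30479_gt.ToroidalMixedRatios
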